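import Mathlib

/-!
# Multiplicities of the characters of a cyclic group
-/

set_option autoImplicit false

namespace Pool.Agent.U143.EQ

open Finset

/-- Two systems of nonnegative multiplicities `a`, `b` of the characters of a cyclic group of order `n`
with the same sums over the subgroups of the dual group; `a` is symmetric, `b` is constant on the
generators of each subgroup, and `b` has a small sum. -/
theorem mult_eq {n : ℕ} {a b : ℕ → ℤ}
    (hsub : ∀ e, e ∣ n → ∑ j ∈ (range n).filter (fun j => e ∣ j), a j
      = ∑ j ∈ (range n).filter (fun j => e ∣ j), b j)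
    (ha0 : ∀ j < n, 0 ≤ a j) (hb0 : ∀ j < n, 0 ≤ b j)
    (hsym : ∀ j, 0 < j → j < n → a (n - j) = a j)
    (hinv : ∀ j < n, ∀ j' < n, n.gcd j = n.gcd j' → b j = b j')
    (hcond : ∀ d, d ∣ n → (n / d).totient ≤ 2 ∨ ∑ j ∈ range n, b j < (n / d).totient) :
    ∀ j < n, a j = b j := by
  suffices H : ∀ k d, n - d = k → ∀ j < n, n.gcd j = d → a j = b j from
    fun j hj => H _ _ rfl j hj rfl
  intro k
  induction k using Nat.strong_induction_on with
  | _ k ih =>
  intro d hk j hj hd
  have hn : 0 < n := by omega
  have hdn : d ∣ n := hd ▸ Nat.gcd_dvd_left n j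
  have hd0 : 0 < d := Nat.pos_of_dvd_of_pos hdn hn
  have hdle : d ≤ n := Nat.le_of_dvd hn hdn
  set S := (range n).filter (fun j' => n.gcd j' = d) with hS
  have hjS : j ∈ S := by rw [hS, mem_filter, mem_range]; exact ⟨hj, hd⟩
  have hcard : S.card = (n / d).totient := (Nat.totient_div_of_dvd hdn).symm
  have hSsub : S ⊆ (range n).filter (fun j' => d ∣ j') := by
    intro x hx
    rw [hS, mem_filter] at hx
    rw [mem_filter]
    exact ⟨hx.1, hx.2 ▸ Nat.gcd_dvd_right n x⟩
  have hTS : ∑ x ∈ S, a x = ∑ x ∈ S, b x := by
    have h1 := hsub d hdn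
    rw [← sum_sdiff hSsub, ← sum_sdiff hSsub (f := b)] at h1
    have h2 : ∑ x ∈ (range n).filter (fun j' => d ∣ j') \ S, a x
        = ∑ x ∈ (range n).filter (fun j' => d ∣ j') \ S, b x := by
      refine sum_congr rfl fun x hx => ?_
      rw [mem_sdiff, mem_filter, mem_range] at hx
      obtain ⟨⟨hxn, hdx⟩, hxS⟩ := hx
      have hgd : d ∣ n.gcd x := Nat.dvd_gcd hdn hdx
      have hg0 : 0 < n.gcd x := Nat.gcd_pos_of_pos_left _ hn
      have hgne : n.gcd x ≠ d := by
        intro h
        exact hxS (by rw [hS, mem_filter, mem_range]; exact ⟨hxn, h⟩)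
      have hlt : d < n.gcd x := lt_of_le_of_ne (Nat.le_of_dvd hg0 hgd) (Ne.symm hgne)
      have hgn : n.gcd x ≤ n := Nat.le_of_dvd hn (Nat.gcd_dvd_left n x)
      exact ih (n - n.gcd x) (by omega) (n.gcd x) rfl x hxn rfl
    rw [h2] at h1
    exact add_left_cancel h1
  have hbS : ∑ x ∈ S, b x = (n / d).totient * b j := by
    rw [sum_congr rfl (g := fun _ => b j) (fun x hx => ?_), sum_const, hcard, nsmul_eq_mul]
    rw [hS, mem_filter, mem_range] at hx
    exact hinv x hx.1 j hj (hx.2.trans hd.symm)
  rcases hcond d hdn with h2 | hlt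
  · -- at most two generators
    have hSc : S.card ≤ 2 := hcard ▸ h2
    by_cases hone : S.card = 1
    · obtain ⟨x, hx⟩ := card_eq_one.mp hone
      have hxj : x = j := by
        have := hjS
        rw [hx, mem_singleton] at this
        exact this.symm
      rw [hx, sum_singleton, sum_singleton, hxj] at hTS
      exact hTS
    · have hpos : 0 < S.card := card_pos.mpr ⟨j, hjS⟩
      have htwo : S.card = 2 := by omega
      have hφ : (n / d).totient = 2 := hcard ▸ htwo
      have hj0 : 0 < j := by
        rcases Nat.eq_zero_or_pos j with h | h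
        · exfalso
          rw [h, Nat.gcd_zero_right] at hd
          rw [← hd, Nat.div_self hn, Nat.totient_one] at hφ
          omega
        · exact h
      have hmem : n - j ∈ S := by
        rw [hS, mem_filter, mem_range]
        refine ⟨by omega, ?_⟩
        rw [Nat.gcd_self_sub_right hj.le]
        exact hd
      have hne : n - j ≠ j := by
        intro h
        have hnj : n = 2 * j := by omega
        have hdj : d = j := by
          rw [← hd, hnj]
          exact Nat.gcd_eq_right ⟨2, by ring⟩
        have h3 : n / d = 2 := by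
          rw [hdj, hnj]
          exact Nat.mul_div_cancel _ hj0
        rw [h3, Nat.totient_two] at hφ
        omega
      have hSeq : S = {j, n - j} := by
        symm
        apply eq_of_subset_of_card_le
        · intro x hx
          rw [mem_insert, mem_singleton] at hx
          rcases hx with rfl | rfl
          · exact hjS
          · exact hmem
        · rw [htwo, card_pair (Ne.symm hne)]
      rw [hSeq, sum_pair (Ne.symm hne), sum_pair (Ne.symm hne), hsym j hj0 hj] at hTS
      have h5 : b (n - j) = b j := hinv _ (by omega) _ hj (by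
        rw [hS, mem_filter] at hmem
        exact hmem.2.trans hd.symm)
      rw [h5] at hTS
      omega
  · -- many generators
    have hle : ∑ x ∈ S, b x ≤ ∑ x ∈ range n, b x :=
      sum_le_sum_of_subset_of_nonneg (filter_subset _ _) fun x hx _ => hb0 x (mem_range.mp hx)
    have hbj : b j = 0 := by
      by_contra hne
      have h3 : 1 ≤ b j := by
        have := hb0 j hj
        omega
      have h4 : ((n / d).totient : ℤ) ≤ (n / d).totient * b j := by nlinarith
      rw [hbS] at hle
      omega
    rw [hbj]
    rw [hbS, hbj, mul_zero] at hTS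
    have h6 := (sum_eq_zero_iff_of_nonneg (fun x hx => ha0 x (by
      rw [hS, mem_filter, mem_range] at hx
      exact hx.1))).mp hTS
    exact h6 j hjS

end Pool.Agent.U143.EQ
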