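import Pool.Agent.U143.EQ.Comb

/-!
# Class functions determined by sums over cyclic subgroups
-/

set_option autoImplicit false

namespace Pool.Agent.U143.EQ

open Finset

/-- nonnegative integral multiplicities at all linear characters of all cyclic subgroups -/
def CH {G : Type} [Group G] (θ : G → ℂ) : Prop :=
  ∀ (g : G) (ψ : Subgroup.zpowers g →* ℂˣ), ∃ k : ℕ,
    ∑ᶠ x : Subgroup.zpowers g, θ x * (((ψ x)⁻¹ : ℂˣ) : ℂ) = k * Nat.card (Subgroup.zpowers g)

variable {G : Type} [Group G] [Finite G] {θ ρ : G → ℂ}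

lemma order_pos (g : G) : 0 < orderOf g := orderOf_pos g

/-- the standard primitive root of unity -/
noncomputable def zt (n : ℕ) : ℂ := Complex.exp (2 * Real.pi * Complex.I / n)

lemma zt_prim {n : ℕ} (hn : 0 < n) : IsPrimitiveRoot (zt n) n :=
  Complex.isPrimitiveRoot_exp n hn.ne'

lemma sum_zpowers (g : G) (F : G → ℂ) :
    ∑ᶠ x : Subgroup.zpowers g, F x = ∑ k ∈ range (orderOf g), F (g ^ k) := by
  classical
  have : Fintype (Subgroup.zpowers g) := Fintype.ofFinite _
  rw [finsum_eq_sum_of_fintype, ← Fin.sum_univ_eq_sum_range (fun k => F (g ^ k)),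
    ← Equiv.sum_comp (finEquivZPowers (isOfFinOrder_of_finite g))]
  refine Finset.sum_congr rfl fun k _ => ?_
  rw [finEquivZPowers_apply]

omit [Finite G] in
lemma card_zp (g : G) : Nat.card (Subgroup.zpowers g) = orderOf g := Nat.card_zpowers g

omit [Finite G] in
/-- the linear character of a cyclic group with a given value at the generator -/
lemma exists_lin (g : G) (u : ℂˣ) (hu : u ^ orderOf g = 1) :
    ∃ ψ : Subgroup.zpowers g →* ℂˣ, ∀ k : ℕ, ψ ⟨g ^ k, ⟨k, by simp⟩⟩ = u ^ k := by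
  let γ : Subgroup.zpowers g := ⟨g, Subgroup.mem_zpowers g⟩
  have hγ : ∀ x : Subgroup.zpowers g, x ∈ Subgroup.zpowers γ := by
    rintro ⟨x, k, rfl⟩
    exact ⟨k, Subtype.ext (by simp [γ])⟩
  have hdiv : orderOf u ∣ orderOf γ := by
    have h1 : orderOf γ = orderOf g := Subgroup.orderOf_mk g _
    rw [h1]
    exact orderOf_dvd_of_pow_eq_one hu
  refine ⟨monoidHomOfForallMemZpowers hγ hdiv, fun k => ?_⟩
  have h2 : (⟨g ^ k, ⟨k, by simp⟩⟩ : Subgroup.zpowers g) = γ ^ k := Subtype.ext (by simp [γ])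
  rw [h2, map_pow, monoidHomOfForallMemZpowers_apply_gen]

lemma exists_mult (hθ : CH θ) (g : G) (j : ℕ) : ∃ a : ℕ,
    ∑ k ∈ range (orderOf g), θ (g ^ k) * (zt (orderOf g) ^ (j * k))⁻¹ = a * orderOf g := by
  have hζ := zt_prim (order_pos g)
  have hz0 : zt (orderOf g) ≠ 0 := hζ.ne_zero (order_pos g).ne'
  obtain ⟨ψ, hψ⟩ := exists_lin g ((Units.mk0 _ hz0) ^ j) (by
    rw [← pow_mul, mul_comm, pow_mul]
    have : (Units.mk0 (zt (orderOf g)) hz0) ^ orderOf g = 1 := by
      ext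
      simpa using hζ.pow_eq_one
    rw [this, one_pow])
  obtain ⟨a, ha⟩ := hθ g ψ
  refine ⟨a, ?_⟩
  rw [card_zp] at ha
  rw [← ha]
  classical
  have : Fintype (Subgroup.zpowers g) := Fintype.ofFinite _
  rw [finsum_eq_sum_of_fintype, ← Equiv.sum_comp (finEquivZPowers (isOfFinOrder_of_finite g)),
    ← Fin.sum_univ_eq_sum_range
      (fun k => θ (g ^ k) * (zt (orderOf g) ^ (j * k))⁻¹)]
  refine Finset.sum_congr rfl fun k _ => ?_
  rw [finEquivZPowers_apply, hψ k]
  simp [pow_mul]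

section fourier

variable {n : ℕ} {ζ : ℂ} {f : ℕ → ℂ} {a : ℕ → ℂ}

lemma geom_root (hn : 0 < n) (hζ : IsPrimitiveRoot ζ n) {k l : ℕ} (hk : k < n) (hl : l < n) :
    ∑ j ∈ range n, (ζ ^ (j * l))⁻¹ * ζ ^ (j * k) = if k = l then (n : ℂ) else 0 := by
  have hz0 : ζ ≠ 0 := hζ.ne_zero hn.ne'
  have h1 : ∀ j ∈ range n, (ζ ^ (j * l))⁻¹ * ζ ^ (j * k) = ((ζ ^ l)⁻¹ * ζ ^ k) ^ j := by
    intro j _
    rw [mul_pow, inv_pow, ← pow_mul, ← pow_mul, mul_comm j l, mul_comm j k]
  rw [sum_congr rfl h1]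
  split_ifs with h
  · subst h
    rw [inv_mul_cancel₀ (pow_ne_zero _ hz0)]
    simp
  · have hne : (ζ ^ l)⁻¹ * ζ ^ k ≠ 1 := by
      intro h2
      apply h
      have h3 : ζ ^ k = ζ ^ l := by
        field_simp at h2
        exact h2
      exact hζ.pow_inj hk hl h3
    rw [geom_sum_eq hne]
    have h4 : ((ζ ^ l)⁻¹ * ζ ^ k) ^ n = 1 := by
      rw [mul_pow, inv_pow, ← pow_mul, ← pow_mul, mul_comm l n, mul_comm k n, pow_mul, pow_mul,
        hζ.pow_eq_one, one_pow, one_pow, inv_one, mul_one]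
    rw [h4, sub_self, zero_div]

/-- Fourier inversion -/
lemma inversion (hn : 0 < n) (hζ : IsPrimitiveRoot ζ n)
    (ha : ∀ j, ∑ k ∈ range n, f k * (ζ ^ (j * k))⁻¹ = a j * n) {k : ℕ} (hk : k < n) :
    f k = ∑ j ∈ range n, a j * ζ ^ (j * k) := by
  have hn0 : (n : ℂ) ≠ 0 := by exact_mod_cast hn.ne'
  apply mul_right_cancel₀ hn0
  rw [sum_mul]
  have h1 : ∀ j ∈ range n, a j * ζ ^ (j * k) * n
      = ∑ l ∈ range n, f l * ((ζ ^ (j * l))⁻¹ * ζ ^ (j * k)) := by
    intro j _
    rw [mul_right_comm, ← ha j, sum_mul]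
    exact sum_congr rfl fun l _ => by ring
  rw [sum_congr rfl h1, sum_comm]
  have h2 : ∀ l ∈ range n, ∑ j ∈ range n, f l * ((ζ ^ (j * l))⁻¹ * ζ ^ (j * k))
      = if k = l then f l * n else 0 := by
    intro l hl
    rw [← mul_sum, geom_root hn hζ hk (mem_range.mp hl)]
    split_ifs <;> simp
  rw [sum_congr rfl h2, sum_ite_eq (range n) k, if_pos (mem_range.mpr hk)]

/-- sums over subgroups -/
lemma sum_sub (hn : 0 < n) (hζ : IsPrimitiveRoot ζ n)
    (ha : ∀ j, ∑ k ∈ range n, f k * (ζ ^ (j * k))⁻¹ = a j * n) {e : ℕ} (he : e ∣ n) :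
    ∑ i ∈ range e, f (n / e * i) = e * ∑ j ∈ (range n).filter (fun j => e ∣ j), a j := by
  have he0 : 0 < e := Nat.pos_of_dvd_of_pos he hn
  obtain ⟨d, hd⟩ := he
  have hd0 : 0 < d := by
    rcases Nat.eq_zero_or_pos d with h | h
    · rw [h, mul_zero] at hd; omega
    · exact h
  have hde : n / e = d := by rw [hd]; exact Nat.mul_div_cancel_left d he0
  rw [hde]
  have h1 : ∀ i ∈ range e, f (d * i) = ∑ j ∈ range n, a j * (ζ ^ (j * d)) ^ i := by
    intro i hi
    have hlt : d * i < n := by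
      rw [hd, mul_comm]
      exact Nat.mul_lt_mul_of_pos_right (mem_range.mp hi) hd0
    rw [inversion hn hζ ha hlt]
    refine sum_congr rfl fun j _ => ?_
    rw [← pow_mul, mul_assoc]
  rw [sum_congr rfl h1, sum_comm, mul_sum, sum_filter]
  refine sum_congr rfl fun j _ => ?_
  rw [← mul_sum]
  split_ifs with h
  · have h2 : ζ ^ (j * d) = 1 := by
      rw [hζ.pow_eq_one_iff_dvd, hd]
      exact Nat.mul_dvd_mul_right h d
    rw [h2]
    simp [mul_comm]
  · have h2 : ζ ^ (j * d) ≠ 1 := by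
      intro h3
      rw [hζ.pow_eq_one_iff_dvd, hd] at h3
      exact h (Nat.dvd_of_mul_dvd_mul_right hd0 h3)
    rw [geom_sum_eq h2]
    have h4 : (ζ ^ (j * d)) ^ e = 1 := by
      rw [← pow_mul, hζ.pow_eq_one_iff_dvd, hd]
      exact ⟨j, by ring⟩
    rw [h4, sub_self, zero_div, mul_zero]

end fourier

/-- rationality of the values gives equal multiplicities for the generators of a subgroup -/
lemma rat_mult {n : ℕ} (hn : 0 < n) {f : ℕ → ℚ} {b : ℕ → ℕ}
    (hb : ∀ j, ∑ k ∈ range n, ((f k : ℚ) : ℂ) * (zt n ^ (j * k))⁻¹ = b j * n) {j j' : ℕ}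
    (h : n.gcd j = n.gcd j') : b j = b j' := by
  have hζ := zt_prim hn
  let P : Polynomial ℚ := ∑ k ∈ range n, Polynomial.C (f k) * Polynomial.X ^ k
  have hP : ∀ i : ℕ, Polynomial.aeval ((zt n ^ i)⁻¹) P = (b i : ℂ) * n := by
    intro i
    rw [← hb i]
    simp only [P, map_sum, map_mul, map_pow, Polynomial.aeval_C, Polynomial.aeval_X]
    refine sum_congr rfl fun k _ => ?_
    rw [inv_pow, ← pow_mul]
    rfl
  have hprim : ∀ i : ℕ, IsPrimitiveRoot ((zt n ^ i)⁻¹) (n / n.gcd i) := by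
    intro i
    have h1 : orderOf (zt n ^ i) = n / n.gcd i := by
      rw [IsOfFinOrder.orderOf_pow _ _ (isOfFinOrder_iff_pow_eq_one.mpr ⟨n, hn, hζ.pow_eq_one⟩),
        ← hζ.eq_orderOf]
    rw [← h1]
    exact (IsPrimitiveRoot.orderOf (zt n ^ i)).inv
  have hpos : 0 < n / n.gcd j := Nat.div_pos (Nat.le_of_dvd hn (Nat.gcd_dvd_left n j))
    (Nat.gcd_pos_of_pos_left _ hn)
  have h2 : Polynomial.aeval ((zt n ^ j)⁻¹) (P - Polynomial.C ((b j : ℚ) * n)) = 0 := by
    rw [map_sub, hP, Polynomial.aeval_C]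
    simp
  have h3 := minpoly.dvd ℚ _ h2
  rw [← Polynomial.cyclotomic_eq_minpoly_rat (hprim j) hpos] at h3
  have h4 : Polynomial.aeval ((zt n ^ j')⁻¹) (P - Polynomial.C ((b j : ℚ) * n)) = 0 := by
    obtain ⟨R, hR⟩ := h3
    rw [hR, map_mul, h, Polynomial.cyclotomic_eq_minpoly_rat (hprim j') (h ▸ hpos),
      minpoly.aeval, zero_mul]
  rw [map_sub, hP, Polynomial.aeval_C] at h4
  have hn0 : (n : ℂ) ≠ 0 := by exact_mod_cast hn.ne'
  have h5 : (b j' : ℂ) * n = (b j : ℂ) * n := by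
    have := sub_eq_zero.mp h4
    rw [this]
    simp
  have h6 := mul_right_cancel₀ hn0 h5
  exact_mod_cast h6.symm

/-- **Main lemma.** Two functions with nonnegative multiplicities on the cyclic subgroups and the same
sums over them agree, if one is real and the other one is rational, and the degree is small compared
with the orders of the elements. -/
theorem eq_of_sums (hθ : CH θ) (hρ : CH ρ) (hreal : ∀ g, (starRingEnd ℂ) (θ g) = θ g)
    {q : G → ℚ} (hq : ∀ g, ρ g = (q g : ℂ)) {r : ℕ} (hr : ρ 1 = r)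
    (hsum : ∀ g : G, ∑ᶠ x : Subgroup.zpowers g, θ (x : G) = ∑ᶠ x : Subgroup.zpowers g, ρ (x : G))
    (hcond : ∀ g : G, (orderOf g).totient ≤ 2 ∨ r < (orderOf g).totient) (g : G) : θ g = ρ g := by
  have hn := order_pos g
  have hζ := zt_prim hn
  set n := orderOf g with hndef
  have hn0 : (n : ℂ) ≠ 0 := by exact_mod_cast hn.ne'
  choose a ha using exists_mult hθ g
  choose b hb using exists_mult hρ g
  rw [← hndef] at ha hb
  have hrange : ∀ e, e ∣ n → (e : ℂ) * ∑ j ∈ (range n).filter (fun j => e ∣ j), (a j : ℂ)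
      = (e : ℂ) * ∑ j ∈ (range n).filter (fun j => e ∣ j), (b j : ℂ) := by
    intro e he
    rw [← sum_sub (a := fun j => (a j : ℂ)) hn hζ ha he,
      ← sum_sub (a := fun j => (b j : ℂ)) hn hζ hb he]
    have he0 : 0 < e := Nat.pos_of_dvd_of_pos he hn
    have hord : orderOf (g ^ (n / e)) = e := by
      rw [orderOf_pow, ← hndef, Nat.gcd_eq_right (Nat.div_dvd_of_dvd he)]
      exact Nat.div_div_self he hn.ne'
    have h1 := hsum (g ^ (n / e))
    rw [sum_zpowers, sum_zpowers, hord] at h1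
    simp only [← pow_mul] at h1
    exact h1
  have hb1 : ∑ j ∈ range n, (b j : ℂ) = r := by
    have h1 := inversion (a := fun j => (b j : ℂ)) (f := fun k => ρ (g ^ k)) hn hζ hb hn
    simp only [pow_zero, mul_zero, mul_one] at h1
    rw [← h1, hr]
  have key : ∀ j < n, (a j : ℤ) = (b j : ℤ) := by
    refine mult_eq (n := n) (a := fun j => (a j : ℤ)) (b := fun j => (b j : ℤ)) ?_
      (fun _ _ => Nat.cast_nonneg _) (fun _ _ => Nat.cast_nonneg _) ?_ ?_ ?_
    · intro e he
      have he0 : (e : ℂ) ≠ 0 := by exact_mod_cast (Nat.pos_of_dvd_of_pos he hn).ne'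
      have h1 := mul_left_cancel₀ he0 (hrange e he)
      exact_mod_cast h1
    · intro j hj0 hj
      have hz0 : zt n ≠ 0 := hζ.ne_zero hn.ne'
      have hnorm : ‖zt n‖ = 1 := Complex.norm_eq_one_of_pow_eq_one hζ.pow_eq_one hn.ne'
      have hconj : (starRingEnd ℂ) (zt n) = (zt n)⁻¹ := (Complex.inv_eq_conj hnorm).symm
      have h1 := congrArg (starRingEnd ℂ) (ha j)
      rw [map_sum, map_mul, Complex.conj_natCast, Complex.conj_natCast, ← ha j] at h1
      have h2 : ∑ k ∈ range n, (starRingEnd ℂ) (θ (g ^ k) * (zt n ^ (j * k))⁻¹)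
          = ∑ k ∈ range n, θ (g ^ k) * (zt n ^ ((n - j) * k))⁻¹ := by
        refine sum_congr rfl fun k _ => ?_
        rw [map_mul, hreal, map_inv₀, map_pow, hconj, inv_pow, inv_inv]
        congr 1
        have h3 : zt n ^ ((n - j) * k) * zt n ^ (j * k) = 1 := by
          rw [← pow_add, ← add_mul, Nat.sub_add_cancel hj.le, pow_mul, hζ.pow_eq_one, one_pow]
        exact eq_inv_of_mul_eq_one_right h3
      rw [h2, ha (n - j), ha j] at h1
      have h3 := mul_right_cancel₀ hn0 h1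
      exact_mod_cast h3
    · intro j hj j' hj' hg
      have h1 : b j = b j' := by
        refine rat_mult hn (f := fun k => q (g ^ k)) (b := b) (fun i => ?_) hg
        rw [← hb i]
        exact sum_congr rfl fun k _ => by rw [hq]
      exact_mod_cast h1
    · intro d hd
      have hd0 : 0 < d := Nat.pos_of_dvd_of_pos hd hn
      have hord : orderOf (g ^ d) = n / d := by
        rw [orderOf_pow, ← hndef, Nat.gcd_eq_right hd]
      have h1 := hcond (g ^ d)
      rw [hord] at h1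
      rcases h1 with h1 | h1
      · exact Or.inl h1
      · right
        have h2 : ∑ j ∈ range n, (b j : ℤ) = r := by exact_mod_cast hb1
        rw [h2]
        exact_mod_cast h1
  have hmod : 1 % n < n := Nat.mod_lt _ hn
  have h1 := inversion (a := fun j => (a j : ℂ)) (f := fun k => θ (g ^ k)) hn hζ ha hmod
  have h2 := inversion (a := fun j => (b j : ℂ)) (f := fun k => ρ (g ^ k)) hn hζ hb hmod
  have h3 : g ^ (1 % n) = g := by
    rw [hndef, pow_mod_orderOf, pow_one]
  simp only [h3] at h1 h2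
  rw [h1, h2]
  refine sum_congr rfl fun j hj => ?_
  have h4 := key j (mem_range.mp hj)
  have h5 : (a j : ℂ) = (b j : ℂ) := by exact_mod_cast h4
  rw [h5]

end Pool.Agent.U143.EQ
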