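import Pool.Agent.U143.EQ.Fun
import Pool.Agent.R389.TwoMain

/-!
# Finitely generated groups with an action of a finite group
-/

set_option autoImplicit false

namespace Pool.Agent.U143.EQ

open Pool.Agent.H302R2 Pool.Agent.H302R3 Pool.Agent.H541R3.ART Pool.Agent.W446.AS
  Pool.Agent.R389 TensorProduct

variable {G : Type} [Group G] {M : Type} [AddCommGroup M]

/-- the representation on `k ⊗ M` -/
noncomputable def bc (k : Type) [Field k] (ρ : Representation ℤ G M) :
    Representation k G (k ⊗[ℤ] M) where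
  toFun g := (ρ g).baseChange k
  map_one' := by rw [map_one]; exact LinearMap.baseChange_id
  map_mul' g h := by rw [map_mul]; exact LinearMap.baseChange_mul _ _

lemma bc_apply (k : Type) [Field k] (ρ : Representation ℤ G M) (g : G) :
    bc k ρ g = (ρ g).baseChange k := rfl

/-- the elements fixed by a subgroup -/
def fixed (ρ : Representation ℤ G M) (C : Subgroup G) : Submodule ℤ M where
  carrier := {x | ∀ g ∈ C, ρ g x = x}
  add_mem' := fun {x y} hx hy g hg => by rw [map_add, hx g hg, hy g hg]
  zero_mem' := fun g _ => map_zero _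
  smul_mem' := fun a x hx g hg => by rw [map_smul, hx g hg]

variable [Module.Finite ℤ M]

lemma finrank_tensor (W : Type) [AddCommGroup W] [Module.Finite ℤ W] :
    Module.finrank ℚ (ℚ ⊗[ℤ] W) = Module.finrank ℤ W := by
  have : IsFractionRing ℤ ℚ := inferInstance
  rw [IsFractionRing.finrank_right_eq (R := ℤ) (S := ℚ) (N := ℚ ⊗[ℤ] W)]
  let f : W →ₗ[ℤ] ℚ ⊗[ℤ] W := TensorProduct.mk ℤ ℚ W 1
  have h : IsLocalizedModule (nonZeroDivisors ℤ) f :=
    (isLocalizedModule_iff_isBaseChange (nonZeroDivisors ℤ) ℚ f).mpr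
      (TensorProduct.isBaseChange ℤ W ℚ)
  exact IsLocalizedModule.finrank_eq (nonZeroDivisors ℤ) f le_rfl

/-- the character of `ℂ ⊗ M` is rational -/
lemma char_bc (ρ : Representation ℤ G M) (g : G) :
    (bc ℂ ρ).character g = (((bc ℚ ρ).character g : ℚ) : ℂ) := by
  change LinearMap.trace ℂ _ ((ρ g).baseChange ℂ) = ((LinearMap.trace ℚ _ ((ρ g).baseChange ℚ) : ℚ) : ℂ)
  have h1 := LinearMap.trace_baseChange (R := ℚ) ((ρ g).baseChange ℚ) ℂ
  have h2 : ((LinearMap.trace ℚ _ ((ρ g).baseChange ℚ) : ℚ) : ℂ)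
      = algebraMap ℚ ℂ (LinearMap.trace ℚ _ ((ρ g).baseChange ℚ)) := rfl
  rw [h2, ← h1]
  let e := TensorProduct.AlgebraTensorModule.cancelBaseChange ℤ ℚ ℂ ℂ M
  rw [← LinearMap.trace_conj' _ e]
  congr 1
  apply LinearMap.ext
  intro x
  obtain ⟨y, rfl⟩ := e.surjective x
  rw [LinearEquiv.conj_apply_apply, LinearEquiv.symm_apply_apply]
  induction y using TensorProduct.induction_on with
  | zero => simp
  | add a b ha hb => rw [map_add, map_add, ha, hb, map_add, map_add]
  | tmul a b =>
    induction b using TensorProduct.induction_on with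
    | zero => simp
    | add u v hu hv => rw [tmul_add, map_add, map_add, hu, hv, map_add, map_add]
    | tmul u v => simp [e]

variable [Finite G]

/-- the average of the character over a subgroup is the rank of the fixed elements -/
lemma sum_char (ρ : Representation ℤ G M) (C : Subgroup G) :
    ∑ᶠ g : C, (((bc ℚ ρ).character (g : G) : ℚ) : ℂ)
      = (Module.finrank ℤ (fixed ρ C) : ℂ) * Nat.card C := by
  classical
  have : Fintype C := Fintype.ofFinite C
  have hc : (Nat.card C : ℚ) ≠ 0 := by exact_mod_cast Nat.card_pos.ne'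
  have : Invertible (Nat.card C : ℚ) := invertibleOfNonzero hc
  let σ : Representation ℚ C (ℚ ⊗[ℤ] M) := (bc ℚ ρ).comp C.subtype
  have h1 := Representation.card_inv_mul_sum_char_eq_finrank σ
  have h2 : Module.finrank ℚ (Representation.invariants σ) = Module.finrank ℤ (fixed ρ C) := by
    rw [← finrank_tensor (fixed ρ C)]
    let ι : ℚ ⊗[ℤ] (fixed ρ C) →ₗ[ℚ] ℚ ⊗[ℤ] M := ((fixed ρ C).subtype).baseChange ℚ
    have hι : Function.Injective ι :=
      Module.Flat.lTensor_preserves_injective_linearMap (fixed ρ C).subtype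
        (fixed ρ C).injective_subtype
    have hrange : LinearMap.range ι = Representation.invariants σ := by
      apply le_antisymm
      · rintro _ ⟨y, rfl⟩
        rw [Representation.mem_invariants]
        intro g
        induction y using TensorProduct.induction_on with
        | zero => simp
        | add a b ha hb => rw [map_add, map_add, ha, hb]
        | tmul a b =>
          change (ρ (g : G)).baseChange ℚ (a ⊗ₜ[ℤ] (b : M)) = a ⊗ₜ[ℤ] (b : M)
          rw [LinearMap.baseChange_tmul, b.2 g g.2]
      · intro w hw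
        rw [Representation.mem_invariants] at hw
        -- the norm map
        let ν : M →ₗ[ℤ] fixed ρ C := LinearMap.codRestrict (fixed ρ C) (∑ g : C, ρ (g : G)) (by
          intro x h hh
          rw [LinearMap.sum_apply, map_sum, ← Equiv.sum_comp (Equiv.mulLeft (⟨h, hh⟩ : C))
            (fun g : C => ρ (g : G) x)]
          refine Finset.sum_congr rfl fun g _ => ?_
          change ρ h (ρ (g : G) x) = ρ (h * (g : G)) x
          rw [map_mul]
          rfl)
        have hν : ∀ z : ℚ ⊗[ℤ] M, ι (ν.baseChange ℚ z) = ∑ g : C, σ g z := by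
          intro z
          induction z using TensorProduct.induction_on with
          | zero => simp
          | add a b ha hb =>
            rw [map_add, map_add, ha, hb, ← Finset.sum_add_distrib]
            exact Finset.sum_congr rfl fun g _ => by rw [map_add]
          | tmul a b =>
            rw [LinearMap.baseChange_tmul]
            change a ⊗ₜ[ℤ] ((∑ g : C, ρ (g : G)) b) = ∑ g : C, (ρ (g : G)).baseChange ℚ (a ⊗ₜ[ℤ] b)
            rw [LinearMap.sum_apply, tmul_sum]
            rfl
        refine ⟨(Nat.card C : ℚ)⁻¹ • (ν.baseChange ℚ w), ?_⟩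
        rw [map_smul, hν, Finset.sum_congr rfl (fun g _ => hw g), Finset.sum_const,
          Finset.card_univ, ← Nat.card_eq_fintype_card, ← Nat.cast_smul_eq_nsmul ℚ,
          smul_smul, inv_mul_cancel₀ hc, one_smul]
    rw [← hrange]
    exact (LinearMap.finrank_range_of_inj hι)
  rw [h2] at h1
  rw [finsum_eq_sum_of_fintype]
  have h3 : ∑ g : C, σ.character g = (Module.finrank ℤ (fixed ρ C) : ℚ) * Nat.card C := by
    rw [← h1]
    field_simp
  have h4 : ∑ g : C, (((bc ℚ ρ).character (g : G) : ℚ) : ℂ) = ((∑ g : C, σ.character g : ℚ) : ℂ) := by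
    push_cast
    rfl
  rw [h4, h3]
  push_cast
  rfl

/-- the multiplicities at linear characters of cyclic subgroups -/
lemma ch_bc (ρ : Representation ℤ G M) :
    CH (fun g : G => (((bc ℚ ρ).character g : ℚ) : ℂ)) := by
  classical
  intro g ψ
  have : Fintype (Subgroup.zpowers g) := Fintype.ofFinite _
  have h1 := base_change (G := Subgroup.zpowers g) (algebraMap ℚ ℂ)
    ((bc ℚ ρ).comp (Subgroup.zpowers g).subtype)
  obtain ⟨k, hk⟩ := nat_closure (F := lc ψ) (fun χ hχ => by
    by_cases he : χ = lc ψ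
    · exact ⟨1, by rw [he, pr_self (lin_irr ψ)]; simp⟩
    · exact ⟨0, by rw [pr_ne hχ (lin_irr ψ) he]; simp⟩) h1
  refine ⟨k, ?_⟩
  rw [pr_eq, inv_mul_eq_iff_eq_mul₀ card_ne] at hk
  rw [finsum_eq_sum_of_fintype, mul_comm, ← hk]
  refine Finset.sum_congr rfl fun x _ => ?_
  have h2 : lc ψ x⁻¹ = (((ψ x)⁻¹ : ℂˣ) : ℂ) := by
    change ((ψ x⁻¹ : ℂˣ) : ℂ) = _
    rw [map_inv]
  rw [h2]
  rfl

omit [Finite G] in
lemma char_one (ρ : Representation ℤ G M) :
    (((bc ℚ ρ).character (1 : G) : ℚ) : ℂ) = (Module.finrank ℤ M : ℂ) := by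
  rw [Representation.char_one, finrank_tensor M]
  simp

end Pool.Agent.U143.EQ
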