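import Pool.Agent.U143.EQ.MW
import Pool.Agent.U143.SH.Ord
import Pool.Agent.R389.RatOne

/-!
# From ranks over cyclic subgroups to all Artin twists
-/

set_option autoImplicit false

namespace Pool.Agent.U143.EQ

open Pool.Agent.H302R2 Pool.Agent.H302R3 Pool.Agent.H541R3.ART Pool.Agent.W446.AS
  Pool.Agent.R389 Pool.Agent.U143.SH Filter Topology

/-- the order at a real point of the conjugate function -/
lemma order_conj {f f' : ℂ → ℂ} {c : ℂ} (hc : (starRingEnd ℂ) c = c)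
    (h : ∀ s, f' ((starRingEnd ℂ) s) = (starRingEnd ℂ) (f s)) (hf : MeromorphicAt f c)
    (hf' : MeromorphicAt f' c) {n : ℤ} (hn : meromorphicOrderAt f c = n) :
    meromorphicOrderAt f' c = n := by
  rw [meromorphicOrderAt_eq_int_iff hf] at hn
  rw [meromorphicOrderAt_eq_int_iff hf']
  obtain ⟨g, hg, hg0, he⟩ := hn
  refine ⟨fun z => (starRingEnd ℂ) (g ((starRingEnd ℂ) z)), ?_, ?_, ?_⟩
  · rw [Complex.analyticAt_iff_eventually_differentiableAt] at hg ⊢
    have h1 : Tendsto (starRingEnd ℂ) (𝓝 c) (𝓝 c) := by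
      have := Complex.continuous_conj.tendsto c
      rwa [hc] at this
    filter_upwards [h1.eventually hg] with z hz
    have h2 := hz.conj_conj
    rw [Complex.conj_conj] at h2
    exact h2
  · simp only [hc]
    intro h0
    apply hg0
    exact (map_eq_zero _).mp h0
  · have h1 : Tendsto (starRingEnd ℂ) (𝓝[≠] c) (𝓝[≠] c) := by
      rw [tendsto_nhdsWithin_iff]
      constructor
      · have := Complex.continuous_conj.tendsto c
        rw [hc] at this
        exact this.mono_left nhdsWithin_le_nhds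
      · filter_upwards [self_mem_nhdsWithin] with z hz hz'
        apply hz
        have h2 := congrArg (starRingEnd ℂ) hz'
        rw [Complex.conj_conj, hc] at h2
        exact h2
    filter_upwards [h1.eventually he] with z hz
    have h2 := h ((starRingEnd ℂ) z)
    rw [Complex.conj_conj] at h2
    rw [h2, hz, smul_eq_mul, smul_eq_mul, map_mul, map_zpow₀, map_sub, Complex.conj_conj, hc]

variable {G : Type} [Group G] [Finite G]

lemma irr_heil {χ : G → ℂ} (hχ : χ ∈ Irr G) : IsHeilbronn χ where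
  conj g h := Irr.conj hχ g h
  mult H ψ := Pool.Agent.H541R3.ART.exists_mult hχ H ψ

lemma irr_star {χ : G → ℂ} (hχ : χ ∈ Irr G) (g : G) : χ g⁻¹ = (starRingEnd ℂ) (χ g) :=
  heil_conj (irr_heil hχ) g

/-- the conjugate of an irreducible character -/
lemma irr_bar {χ : G → ℂ} (hχ : χ ∈ Irr G) : (fun g => (starRingEnd ℂ) (χ g)) ∈ Irr G := by
  classical
  have : Fintype G := Fintype.ofFinite G
  have h1 : (fun g => (starRingEnd ℂ) (χ g)) = fun g => χ g⁻¹ := by
    funext g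
    rw [irr_star hχ]
  rw [h1]
  obtain ⟨n, ρ, hρ, h2⟩ := id hχ
  have h3 : (fun g => χ g⁻¹) = ρ.dual.character := by
    funext g
    rw [Representation.char_dual, h2]
  have h4 : Virt (fun g => χ g⁻¹) := by
    rw [h3]
    exact virt_of_closure (char_memP _ ρ.dual rfl)
  obtain ⟨d, hd, hd1⟩ := irr_deg_pos hχ
  refine irr_of_norm h4 ?_ (d := d) (by simpa using hd1)
  rw [pr_eq]
  simp only [inv_inv]
  have h5 := pair_self hχ
  have h6 : ∑ g : G, χ g⁻¹ * χ g = ∑ g : G, χ g * χ g⁻¹ :=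
    Finset.sum_congr rfl fun g _ => mul_comm _ _
  rw [h6, h5, inv_mul_cancel₀ card_ne]

lemma theta_real {L : (G → ℂ) → ℂ → ℂ} {c : ℂ}
    (hbar : ∀ χ ∈ Irr G, ords L c (fun g => (starRingEnd ℂ) (χ g)) = ords L c χ) (g : G) :
    (starRingEnd ℂ) ((theta (ords L c) : G → ℂ) g) = theta (ords L c) g := by
  rw [theta, map_sum]
  refine Finset.sum_bij' (fun χ _ => fun g => (starRingEnd ℂ) (χ g))
    (fun χ _ => fun g => (starRingEnd ℂ) (χ g)) ?_ ?_ ?_ ?_ ?_
  · intro χ hχ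
    exact mem_irrF.mpr (irr_bar (mem_irrF.mp hχ))
  · intro χ hχ
    exact mem_irrF.mpr (irr_bar (mem_irrF.mp hχ))
  · intro χ _
    funext x
    exact Complex.conj_conj _
  · intro χ _
    funext x
    exact Complex.conj_conj _
  · intro χ hχ
    rw [hbar χ (mem_irrF.mp hχ), map_mul]
    congr 1
    exact map_intCast (starRingEnd ℂ) _

/-- **Ranks over the cyclic subgroups determine all multiplicities.** -/
theorem equiv_main {L : (G → ℂ) → ℂ → ℂ}
    (hL : ∀ χ ∈ Irr G, MeromorphicAt (L χ) 1 ∧ meromorphicOrderAt (L χ) 1 ≠ ⊤)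
    (hconj : ∀ χ ∈ Irr G, ∀ s : ℂ, L (fun g => (starRingEnd ℂ) (χ g)) ((starRingEnd ℂ) s)
      = (starRingEnd ℂ) (L χ s))
    {M : Type} [AddCommGroup M] [Module.Finite ℤ M] (ρ : Representation ℤ G M)
    (hcyc : ∀ (g : G) (ψ : Subgroup.zpowers g →* ℂˣ) (m : (G → ℂ) → ℕ),
      IsDecomp (ind (Subgroup.zpowers g) (fun h => ((ψ h : ℂˣ) : ℂ))) m →
        0 ≤ meromorphicOrderAt (fun s => ∏ᶠ χ ∈ Irr G, L χ s ^ m χ) 1)
    (hrank : ∀ (g : G) (m : (G → ℂ) → ℕ),
      IsDecomp (ind (Subgroup.zpowers g) (fun _ => (1 : ℂ))) m →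
        meromorphicOrderAt (fun s => ∏ᶠ χ ∈ Irr G, L χ s ^ m χ) 1
          = ((Module.finrank ℤ (fixed ρ (Subgroup.zpowers g)) : ℤ) : WithTop ℤ))
    (hcond : ∀ g : G, (orderOf g).totient ≤ 2 ∨ Module.finrank ℤ M < (orderOf g).totient)
    {V : Type} [AddCommGroup V] [Module ℂ V] [FiniteDimensional ℂ V] (τ : Representation ℂ G V)
    (m : (G → ℂ) → ℕ) (hm : IsDecomp τ.character m) :
    meromorphicOrderAt (fun s => ∏ᶠ χ ∈ Irr G, L χ s ^ m χ) 1
      = ((Module.finrank ℂ (Representation.IntertwiningMap τ (bc ℂ ρ)) : ℤ) : WithTop ℤ) := by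
  classical
  have : Fintype G := Fintype.ofFinite G
  have hone : ∀ g : G, ∃ m : (G → ℂ) → ℕ,
      IsDecomp (ind (Subgroup.zpowers g) (fun _ => (1 : ℂ))) m := by
    intro g
    obtain ⟨m, hm⟩ := ind_isDecomp (Subgroup.zpowers g) (1 : Subgroup.zpowers g →* ℂˣ)
    refine ⟨m, ?_⟩
    have h1 : (fun h : Subgroup.zpowers g => (((1 : Subgroup.zpowers g →* ℂˣ) h : ℂˣ) : ℂ))
        = fun _ => 1 := by
      funext h
      simp
    rw [h1] at hm
    exact hm
  have hθ : CH (theta (ords L 1) : G → ℂ) := by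
    intro g ψ
    obtain ⟨m', hm'⟩ := ind_isDecomp (Subgroup.zpowers g) ψ
    have h1 := hcyc g ψ m' hm'
    rw [ordm_eq hL] at h1
    have h2 : (0 : ℤ) ≤ ∑ χ ∈ irrF G, (m' χ : ℤ) * ords L 1 χ := by exact_mod_cast h1
    obtain ⟨k, hk⟩ := Int.eq_ofNat_of_zero_le h2
    refine ⟨k, ?_⟩
    rw [sum_eq (Subgroup.zpowers g) ψ hm', hk]
    push_cast
    ring
  have hbar : ∀ χ ∈ Irr G, ords L 1 (fun g => (starRingEnd ℂ) (χ g)) = ords L 1 χ := by
    intro χ hχ
    have h1 : meromorphicOrderAt (L χ) 1 = ((ords L 1 χ : ℤ) : WithTop ℤ) :=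
      (WithTop.coe_untop₀_of_ne_top (hL χ hχ).2).symm
    have h2 := order_conj (c := 1) (map_one _) (hconj χ hχ) (hL χ hχ).1 (hL _ (irr_bar hχ)).1 h1
    have h3 : meromorphicOrderAt (L (fun g => (starRingEnd ℂ) (χ g))) 1
        = ((ords L 1 (fun g => (starRingEnd ℂ) (χ g)) : ℤ) : WithTop ℤ) :=
      (WithTop.coe_untop₀_of_ne_top (hL _ (irr_bar hχ)).2).symm
    rw [h3] at h2
    exact_mod_cast h2
  have hsum : ∀ g : G, ∑ᶠ x : Subgroup.zpowers g, (theta (ords L 1) : G → ℂ) (x : G)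
      = ∑ᶠ x : Subgroup.zpowers g, (((bc ℚ ρ).character (x : G) : ℚ) : ℂ) := by
    intro g
    obtain ⟨m', hm'⟩ := hone g
    have h1 := hrank g m' hm'
    rw [ordm_eq hL] at h1
    have h2 : ∑ χ ∈ irrF G, (m' χ : ℤ) * ords L 1 χ
        = (Module.finrank ℤ (fixed ρ (Subgroup.zpowers g)) : ℤ) := by exact_mod_cast h1
    have h3 : IsDecomp (ind (Subgroup.zpowers g)
        (fun h => (((1 : Subgroup.zpowers g →* ℂˣ) h : ℂˣ) : ℂ))) m' := by
      have h4 : (fun h : Subgroup.zpowers g => (((1 : Subgroup.zpowers g →* ℂˣ) h : ℂˣ) : ℂ))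
          = fun _ => 1 := by
        funext h
        simp
      rw [h4]
      exact hm'
    have h5 := sum_eq (L := L) (c := 1) (Subgroup.zpowers g) 1 h3
    simp only [MonoidHom.one_apply, inv_one, Units.val_one, mul_one] at h5
    rw [h5, sum_char ρ (Subgroup.zpowers g), h2]
    push_cast
    rfl
  have key : ∀ g : G, (theta (ords L 1) : G → ℂ) g = (((bc ℚ ρ).character g : ℚ) : ℂ) :=
    eq_of_sums hθ (ch_bc ρ) (theta_real hbar) (fun g => rfl) (char_one ρ) hsum hcond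
  rw [ordm_eq hL]
  have h1 : Invertible (Nat.card G : ℂ) := invertibleOfNonzero card_ne
  have h2 := Representation.card_inv_mul_sum_char_mul_char_eq_finrank τ (bc ℂ ρ)
  have h3 : (fun g => (bc ℂ ρ).character g) = (theta (ords L 1) : G → ℂ) := by
    funext g
    rw [char_bc, key g]
  have h4 : pr (theta (ords L 1) : G → ℂ) τ.character
      = (Module.finrank ℂ (Representation.IntertwiningMap τ (bc ℂ ρ)) : ℂ) := by
    rw [← h3, pr_eq]
    exact h2
  have h5 := pr_ords (l := L) (c := 1) (m := fun χ => (m χ : ℤ)) (f := τ.character)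
    (fun χ hχ => by rw [hm.pr hχ]; simp)
  rw [h4] at h5
  have h6 : (∑ χ ∈ irrF G, (m χ : ℤ) * ords L 1 χ)
      = (Module.finrank ℂ (Representation.IntertwiningMap τ (bc ℂ ρ)) : ℤ) := by
    exact_mod_cast h5.symm
  rw [h6]

end Pool.Agent.U143.EQ
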